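import Mathlib

set_option autoImplicit false

/-! Abstract part: lists (walks) closed under cutting out a closed piece, with an integer weight. -/

namespace Pool.Agent.Lib.MP_2674cb_lc

variable {β : Type*}

/-- closed under cutting a closed piece -/
def CutClosed (Rz : List β → Prop) : Prop :=
  ∀ (X Y Z : List β) (t : β), Rz (X ++ t :: (Y ++ t :: Z)) → Rz (X ++ t :: Z)

lemma exists_dup [DecidableEq β] : ∀ (V : List β), ¬ V.Nodup →
    ∃ (X Y Z : List β) (t : β), V = X ++ t :: (Y ++ t :: Z) := by
  intro V
  induction V with
  | nil => intro h; exact absurd List.nodup_nil h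
  | cons a V ih =>
    intro h
    by_cases ha : a ∈ V
    · obtain ⟨Y, Z, hYZ⟩ := List.append_of_mem ha
      exact ⟨[], Y, Z, a, by rw [hYZ]; rfl⟩
    · have h2 : ¬ V.Nodup := fun h3 => h (List.nodup_cons.2 ⟨ha, h3⟩)
      obtain ⟨X, Y, Z, t, ht⟩ := ih h2
      exact ⟨a :: X, Y, Z, t, by rw [ht]; rfl⟩

/-- loop erasure inside a piece -/
lemma erase_loops [DecidableEq β] {Rz : List β → Prop} (hcut : CutClosed Rz) (X Z : List β) :
    ∀ (n : ℕ) (V : List β), V.length = n → Rz (X ++ V ++ Z) →
      ∃ V' : List β, V'.Nodup ∧ (V' = V ∨ V'.length < V.length) ∧ Rz (X ++ V' ++ Z) := by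
  intro n
  induction n using Nat.strong_induction_on with
  | _ n ih =>
    intro V hV hR
    by_cases hn : V.Nodup
    · exact ⟨V, hn, Or.inl rfl, hR⟩
    · obtain ⟨P, Y, R, t, ht⟩ := exists_dup V hn
      have h1 : Rz (X ++ (P ++ t :: R) ++ Z) := by
        have h2 : X ++ V ++ Z = (X ++ P) ++ t :: (Y ++ t :: (R ++ Z)) := by
          rw [ht]; simp
        rw [h2] at hR
        have h3 := hcut _ _ _ _ hR
        have h4 : X ++ (P ++ t :: R) ++ Z = (X ++ P) ++ t :: (R ++ Z) := by simp
        rw [h4]; exact h3
      have hlt : (P ++ t :: R).length < V.length := by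
        rw [ht]; simp only [List.length_append, List.length_cons]; omega
      obtain ⟨V', h5, h6, h7⟩ := ih _ (by omega) (P ++ t :: R) rfl h1
      refine ⟨V', h5, Or.inr ?_, h7⟩
      rcases h6 with h6 | h6
      · rw [h6]; exact hlt
      · omega

lemma sum_append_f (f : β → ℤ) (X Y : List β) :
    ((X ++ Y).map f).sum = (X.map f).sum + (Y.map f).sum := by simp

lemma sum_cons_f (f : β → ℤ) (x : β) (Y : List β) :
    ((x :: Y).map f).sum = f x + (Y.map f).sum := by simp

/-- weight of a walk from below: high letters minus `a` times low letters -/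
lemma sum_ge_counts (f : β → ℤ) (a : ℕ) (hf : ∀ t, -(a : ℤ) ≤ f t) (W : List β) :
    (W.countP (fun t => decide (0 < f t)) : ℤ) - a * (W.countP (fun t => decide (f t ≤ 0)) : ℤ) ≤
      (W.map f).sum := by
  induction W with
  | nil => simp
  | cons x W ih =>
    rw [sum_cons_f, List.countP_cons, List.countP_cons]
    by_cases h : 0 < f x
    · have h2 : ¬ f x ≤ 0 := by omega
      simp only [h, h2, decide_true, decide_false, if_true, Bool.false_eq_true, if_false]
      push_cast
      linarith
    · have h2 : f x ≤ 0 := by omega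
      simp only [h, h2, decide_true, decide_false, if_true, Bool.false_eq_true, if_false]
      push_cast
      have := hf x
      linarith

lemma length_eq_counts (f : β → ℤ) (W : List β) :
    W.length = W.countP (fun t => decide (0 < f t)) + W.countP (fun t => decide (f t ≤ 0)) := by
  induction W with
  | nil => simp
  | cons x W ih =>
    rw [List.countP_cons, List.countP_cons, List.length_cons]
    by_cases h : 0 < f x
    · have h2 : ¬ f x ≤ 0 := by omega
      simp only [h, h2, decide_true, decide_false, if_true, Bool.false_eq_true, if_false]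
      omega
    · have h2 : f x ≤ 0 := by omega
      simp only [h, h2, decide_true, decide_false, if_true, Bool.false_eq_true, if_false]
      omega

/-- a list without repetitions has at most `low.card` low letters -/
lemma nodup_low [DecidableEq β] (f : β → ℤ) (low : Finset β) (V : List β) (hV : V.Nodup)
    (hlow : ∀ t ∈ V, f t ≤ 0 → t ∈ low) :
    V.countP (fun t => decide (f t ≤ 0)) ≤ low.card := by
  rw [List.countP_eq_length_filter]
  have h1 : (V.filter (fun t => decide (f t ≤ 0))).Nodup := hV.filter _
  rw [← List.toFinset_card_of_nodup h1]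
  apply Finset.card_le_card
  intro t ht
  rw [List.mem_toFinset, List.mem_filter] at ht
  exact hlow t ht.1 (by simpa using ht.2)

section main

variable [DecidableEq β] {Rz : List β → Prop} (hcut : CutClosed Rz) (f : β → ℤ) (a B : ℕ)
  (hf : ∀ t, -(a : ℤ) ≤ f t) (low : Finset β)
  (hlow : ∀ W, Rz W → ∀ t ∈ W, f t ≤ 0 → t ∈ low)
  (W : List β) (hW : Rz W) (h1 : 1 ≤ (W.map f).sum) (h2 : (W.map f).sum ≤ B)
  (hmin : ∀ W', Rz W' → W'.length < W.length → (W'.map f).sum ≤ 0)

include hcut hf hlow hW h1 hmin in
/-- step A: every contiguous piece has weight at least `-a Q` -/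
lemma piece_ge (X V Z : List β) (hV : W = X ++ V ++ Z) :
    -((a : ℤ) * low.card) ≤ (V.map f).sum := by
  obtain ⟨V', h3, h4, h5⟩ := erase_loops hcut X Z V.length V rfl (hV ▸ hW)
  have h6 : V'.countP (fun t => decide (f t ≤ 0)) ≤ low.card :=
    nodup_low f low V' h3 (fun t ht => hlow _ h5 t (by simp [ht]))
  have h7 := sum_ge_counts f a hf V'
  have h8 : -((a : ℤ) * low.card) ≤ (V'.map f).sum := by
    have h9 : (0 : ℤ) ≤ (V'.countP (fun t => decide (0 < f t)) : ℤ) := Int.natCast_nonneg _
    have h10 : (a : ℤ) * (V'.countP (fun t => decide (f t ≤ 0)) : ℤ) ≤ a * low.card := by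
      apply mul_le_mul_of_nonneg_left _ (Int.natCast_nonneg _)
      exact_mod_cast h6
    linarith
  rcases h4 with h4 | h4
  · rw [← h4]; exact h8
  · have h9 := hmin _ h5 (by
      rw [hV]; simp only [List.length_append]; omega)
    rw [hV] at h1
    rw [sum_append_f, sum_append_f] at h1 h9
    linarith

include hcut hf hlow hW h1 hmin in
/-- step B, part 1 -/
lemma closed_ge (x : β) : ∀ (n : ℕ) (V X Z : List β), V.length = n → W = X ++ x :: (V ++ Z) →
    (V.count x : ℤ) - a * low.card ≤ (V.map f).sum := by
  intro n
  induction n using Nat.strong_induction_on with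
  | _ n ih =>
    intro V X Z hn hV
    by_cases hx : x ∈ V
    · obtain ⟨C, V3, hC, hxC⟩ := List.eq_append_cons_of_mem hx
      have h3 : Rz (X ++ x :: (V3 ++ Z)) := by
        apply hcut X C (V3 ++ Z) x
        have h4 : X ++ x :: (C ++ x :: (V3 ++ Z)) = W := by rw [hV, hC]; simp
        rw [h4]; exact hW
      have h4 := hmin _ h3 (by
        rw [hV, hC]; simp only [List.length_append, List.length_cons]; omega)
      have h5 : (W.map f).sum = (X.map f).sum + (f x + ((C.map f).sum + (f x + ((V3.map f).sum +
          (Z.map f).sum)))) := by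
        rw [hV, hC]; simp
      have h6 : ((X ++ x :: (V3 ++ Z)).map f).sum = (X.map f).sum + (f x + ((V3.map f).sum +
          (Z.map f).sum)) := by simp
      have h7 := ih V3.length (by rw [← hn, hC]; simp only [List.length_append, List.length_cons]; omega)
        V3 (X ++ x :: C) Z rfl (by rw [hV, hC]; simp)
      have h8 : (V.map f).sum = (C.map f).sum + (f x + (V3.map f).sum) := by rw [hC]; simp
      have h9 : V.count x = V3.count x + 1 := by
        rw [hC, List.count_append, List.count_eq_zero_of_not_mem hxC, List.count_cons_self]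
        omega
      rw [h8, h9]
      push_cast
      rw [h5] at h1
      rw [h6] at h4
      linarith
    · rw [List.count_eq_zero_of_not_mem hx]
      have h3 := piece_ge hcut f a hf low hlow W hW h1 hmin (X ++ [x]) V Z (by rw [hV]; simp)
      push_cast
      linarith

include hcut hf hlow hW h1 h2 hmin in
/-- step B: every letter occurs at most `B + 1 + 2 a Q` times -/
lemma count_le (x : β) : W.count x ≤ B + 1 + 2 * a * low.card := by
  by_cases hx : x ∈ W
  · obtain ⟨I, V, hI, hxI⟩ := List.eq_append_cons_of_mem hx
    have h3 := closed_ge hcut f a hf low hlow W hW h1 hmin x V.length V I [] rfl (by rw [hI]; simp)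
    have h4 := piece_ge hcut f a hf low hlow W hW h1 hmin [] (I ++ [x]) V (by rw [hI]; simp)
    have h5 : (W.map f).sum = ((I ++ [x]).map f).sum + (V.map f).sum := by
      rw [hI]; simp; ring
    have h6 : W.count x = V.count x + 1 := by
      rw [hI, List.count_append, List.count_eq_zero_of_not_mem hxI, List.count_cons_self]
      omega
    have h7 : (W.count x : ℤ) ≤ B + 1 + 2 * a * low.card := by
      rw [h6]; push_cast
      linarith
    exact_mod_cast h7
  · rw [List.count_eq_zero_of_not_mem hx]; omega

include hcut hf hlow hW h1 h2 hmin in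
/-- steps C and D -/
theorem length_bound :
    W.length ≤ B + (a + 1) * (low.card * (B + 1 + 2 * a * low.card)) := by
  have hC : W.countP (fun t => decide (f t ≤ 0)) ≤ low.card * (B + 1 + 2 * a * low.card) := by
    rw [List.countP_eq_length_filter]
    set F := W.filter (fun t => decide (f t ≤ 0)) with hF
    have h3 : F.length = ∑ x ∈ F.toFinset, F.count x := (List.sum_toFinset_count_eq_length F).symm
    rw [h3]
    have hsub : F.toFinset ⊆ low := by
      intro t ht
      rw [List.mem_toFinset, hF, List.mem_filter] at ht
      exact hlow W hW t ht.1 (by simpa using ht.2)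
    calc ∑ x ∈ F.toFinset, F.count x
        ≤ ∑ x ∈ F.toFinset, (B + 1 + 2 * a * low.card) := by
          apply Finset.sum_le_sum
          intro x _
          refine le_trans ?_ (count_le hcut f a B hf low hlow W hW h1 h2 hmin x)
          rw [hF]
          exact (List.filter_sublist).count_le _
      _ = F.toFinset.card * (B + 1 + 2 * a * low.card) := by rw [Finset.sum_const, smul_eq_mul]
      _ ≤ low.card * (B + 1 + 2 * a * low.card) :=
          Nat.mul_le_mul_right _ (Finset.card_le_card hsub)
  have hD := sum_ge_counts f a hf W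
  have hL := length_eq_counts f W
  set H := W.countP (fun t => decide (0 < f t)) with hH
  set L := W.countP (fun t => decide (f t ≤ 0)) with hLdef
  have h3 : (H : ℤ) ≤ B + a * L := by linarith
  have h4 : H ≤ B + a * L := by exact_mod_cast h3
  have h5 : a * L ≤ a * (low.card * (B + 1 + 2 * a * low.card)) := Nat.mul_le_mul_left _ hC
  rw [hL, add_mul, one_mul]
  omega

end main

end Pool.Agent.Lib.MP_2674cb_lc
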