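import Pool.Agent.Lib.MP_2674cb_lc.Count
import Pool.Agent.Lib.MP_2674cb_lc.Ins.Walk

set_option autoImplicit false

/-! Realizable trace walks, and short words with large mean trace. -/

namespace Pool.Agent.Lib.MP_2674cb_lc

open Finset

variable {α : Type*}

/-- the list of the traces at the positions of the word -/
def TL (l : List α) (d : List (Step α)) : List (List (Ev α)) :=
  (List.range l.length).map (fun p : ℕ => trace d (p : ℤ))

lemma TL_length (l : List α) (d : List (Step α)) : (TL l d).length = l.length := by simp [TL]

lemma TL_get (l : List α) (d : List (Step α)) (p : ℕ) (hp : p < l.length) :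
    (TL l d)[p]? = some (trace d (p : ℤ)) := by
  unfold TL
  rw [List.getElem?_map, List.getElem?_range hp]
  rfl

lemma TL_get_none (l : List α) (d : List (Step α)) (p : ℕ) (hp : l.length ≤ p) :
    (TL l d)[p]? = none := by
  rw [List.getElem?_eq_none]
  rw [TL_length]; exact hp

/-- realizable walks of traces -/
def Rz (S : Set (List α × List α)) (T : List (List (Ev α))) : Prop :=
  ∃ (l : List α) (d : List (Step α)), Valid S l d ∧ TL l d = T

lemma cutClosed_Rz (S : Set (List α × List α)) : CutClosed (Rz S) := by
  rintro X Y Z t ⟨l, d, hv, hT⟩
  have hlen : l.length = X.length + (Y.length + (Z.length + 1) + 1) := by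
    have := congrArg List.length hT
    rw [TL_length] at this
    simpa using this
  have hq : trace d ((X.length : ℕ) : ℤ) = t := by
    have h1 := TL_get l d X.length (by omega)
    rw [hT, List.getElem?_append_right le_rfl, Nat.sub_self] at h1
    simpa using h1.symm
  have hq' : trace d ((X.length + Y.length + 1 : ℕ) : ℤ) = t := by
    have h1 := TL_get l d (X.length + Y.length + 1) (by omega)
    rw [hT, List.getElem?_append_right (by omega)] at h1
    have h2 : X.length + Y.length + 1 - X.length = Y.length + 1 := by omega
    rw [h2, List.getElem?_cons_succ, List.getElem?_append_right le_rfl, Nat.sub_self] at h1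
    simpa using h1.symm
  obtain ⟨l', d', hv', hl', hle, hge⟩ := cut S l d hv X.length (X.length + Y.length + 1) (by omega)
    (by omega) (by rw [hq, hq'])
  refine ⟨l', d', hv', ?_⟩
  have hl'' : l'.length = X.length + 1 + Z.length := by omega
  apply List.ext_getElem?
  intro p
  by_cases hp : p < l'.length
  · rw [TL_get l' d' p hp]
    by_cases hpq : p ≤ X.length
    · rw [hle p (by exact_mod_cast hpq), ← TL_get l d p (by omega), hT]
      by_cases h1 : p < X.length
      · rw [List.getElem?_append_left h1, List.getElem?_append_left h1]
      · have h2 : p = X.length := by omega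
        rw [h2, List.getElem?_append_right le_rfl, List.getElem?_append_right le_rfl, Nat.sub_self]
        simp
    · rw [hge p (by exact_mod_cast (by omega : X.length ≤ p))]
      have h3 : (p : ℤ) + (((X.length + Y.length + 1 : ℕ) : ℤ) - ((X.length : ℕ) : ℤ)) =
          ((p + Y.length + 1 : ℕ) : ℤ) := by push_cast; ring
      rw [h3, ← TL_get l d (p + Y.length + 1) (by omega), hT]
      rw [List.getElem?_append_right (by omega), List.getElem?_append_right (by omega)]
      obtain ⟨j, hj⟩ : ∃ j, p = X.length + 1 + j := ⟨p - (X.length + 1), by omega⟩
      have h4 : p + Y.length + 1 - X.length = (Y.length + 1 + j) + 1 := by omega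
      have h5 : p - X.length = j + 1 := by omega
      rw [h4, h5, List.getElem?_cons_succ, List.getElem?_cons_succ,
        List.getElem?_append_right (by omega)]
      have h6 : Y.length + 1 + j - Y.length = j + 1 := by omega
      rw [h6, List.getElem?_cons_succ]
  · rw [TL_get_none l' d' p (by omega), List.getElem?_eq_none]
    simp only [List.length_append, List.length_cons]
    omega

lemma sum_range_map (g : ℕ → ℕ) (a n : ℕ) :
    ((List.range n).map (fun p => (g p : ℤ) - a)).sum = ((∑ p ∈ range n, g p : ℕ) : ℤ) - a * n := by
  induction n with
  | zero => simp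
  | succ n ih =>
    rw [List.range_succ, List.map_append, List.sum_append, ih, sum_range_succ]
    push_cast
    simp
    ring

lemma TL_sum (l : List α) (d : List (Step α)) (a : ℕ) :
    ((TL l d).map (fun t => (t.length : ℤ) - a)).sum =
      ((∑ p ∈ range l.length, (trace d (p : ℤ)).length : ℕ) : ℤ) - a * l.length := by
  unfold TL
  rw [List.map_map]
  exact sum_range_map (fun p => (trace d (p : ℤ)).length) a l.length

/-- all lists of length at most `a` with entries in `E` -/
def lists {γ : Type*} [DecidableEq γ] (E : Finset γ) : ℕ → Finset (List γ)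
  | 0 => {[]}
  | a + 1 => insert [] ((E ×ˢ lists E a).image (fun x => x.1 :: x.2))

lemma mem_lists {γ : Type*} [DecidableEq γ] (E : Finset γ) :
    ∀ (a : ℕ) (t : List γ), t.length ≤ a → (∀ e ∈ t, e ∈ E) → t ∈ lists E a := by
  intro a
  induction a with
  | zero =>
    intro t ht _
    have : t = [] := List.length_eq_zero_iff.1 (by omega)
    simp [lists, this]
  | succ a ih =>
    intro t ht hE
    cases t with
    | nil => simp [lists]
    | cons e t =>
      unfold lists
      apply mem_insert_of_mem
      rw [mem_image]
      refine ⟨(e, t), ?_, rfl⟩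
      rw [mem_product]
      exact ⟨hE e List.mem_cons_self, ih t (by simpa using ht)
        (fun x hx => hE x (List.mem_cons_of_mem _ hx))⟩

lemma card_lists {γ : Type*} [DecidableEq γ] (E : Finset γ) :
    ∀ (a : ℕ), (lists E a).card ≤ (E.card + 1) ^ a := by
  intro a
  induction a with
  | zero => simp [lists]
  | succ a ih =>
    unfold lists
    calc _ ≤ ((E ×ˢ lists E a).image (fun x => x.1 :: x.2)).card + 1 := card_insert_le _ _
      _ ≤ (E ×ˢ lists E a).card + 1 := Nat.add_le_add_right card_image_le _
      _ = E.card * (lists E a).card + 1 := by rw [card_product]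
      _ ≤ E.card * (E.card + 1) ^ a + (E.card + 1) ^ a :=
          Nat.add_le_add (Nat.mul_le_mul_left _ ih) (Nat.one_le_pow _ _ (by omega))
      _ = (E.card + 1) ^ (a + 1) := by ring

end Pool.Agent.Lib.MP_2674cb_lc
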