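import Pool.Agent.Lib.MP_2674cb_lc.Ins.To

set_option autoImplicit false

/-! If local activities are bounded, reachability is a regular relation. -/

namespace Pool.Agent.Lib.MP_2674cb_lc

variable {α : Type*}

/-- the reachability relation as a language over pairs of letters -/
def RL (S : Set (List α × List α)) : Language (α × α) :=
  {u | Relation.ReflTransGen (RStep S) (u.map Prod.fst) (u.map Prod.snd)}

/-- `τ` is the trace at the last position of `x` of a left history -/
def LH (S : Set (List α × List α)) (x : List (α × α)) (τ : List (Ev α)) : Prop :=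
  ∃ L : List (Step α), (∀ s ∈ L, s.2 ∈ S) ∧ (∀ s ∈ L, s.1 ≤ (x.length : ℤ) - 1) ∧
    (∀ p : ℤ, p ≤ (x.length : ℤ) - 1 →
      LocalTo (wd (x.map Prod.fst) p) (trace L p) (wd (x.map Prod.snd) p)) ∧
    trace L ((x.length : ℤ) - 1) = τ

lemma wd_append_left (x y : List α) (p : ℤ) (hp : p ≤ (x.length : ℤ) - 1) :
    wd (x ++ y) p = wd x p := by
  unfold wd
  split_ifs with h
  · rw [List.getElem?_append_left (by omega)]
  · rfl

lemma wd_append_right (x y : List α) (p : ℤ) (hp : (x.length : ℤ) ≤ p) :
    wd (x ++ y) p = y[(p - x.length).toNat]? := by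
  unfold wd
  rw [if_pos (by omega), List.getElem?_append_right (by omega)]
  congr 1
  omega

lemma swap_prefix {S : Set (List α × List α)} (hS : ∀ p ∈ S, p.1.length = p.2.length)
    (hS0 : ∀ p ∈ S, p.1 ≠ []) (K : ℕ)
    (hK : ∀ (l : List α) (d : List (Step α)), Valid S l d → ∀ p : ℤ, (trace d p).length ≤ K)
    (x x' : List (α × α))
    (h : ∀ τ : List (Ev α), τ.length ≤ K → (∀ e ∈ τ, e.1 ∈ S ∧ e.2 < e.1.1.length) →
      LH S x τ → LH S x' τ)
    (y : List (α × α)) (hy : x ++ y ∈ RL S) : x' ++ y ∈ RL S := by
  have hy' : Relation.ReflTransGen (RStep S) ((x ++ y).map Prod.fst) ((x ++ y).map Prod.snd) := hy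
  obtain ⟨d, hd⟩ := (reach_iff hS hS0 _ _).1 hy'
  show Relation.ReflTransGen (RStep S) ((x' ++ y).map Prod.fst) ((x' ++ y).map Prod.snd)
  rw [reach_iff hS hS0]
  set q : ℤ := (x.length : ℤ) - 1 with hq
  set q' : ℤ := (x'.length : ℤ) - 1 with hq'
  -- the left history of `d`
  have hLH : LH S x (trace d q) := by
    refine ⟨d.filter (fun s => decide (s.1 ≤ q)), ?_, ?_, ?_, ?_⟩
    · intro s hs; exact hd.1 s (List.mem_filter.1 hs).1
    · intro s hs
      exact of_decide_eq_true (List.mem_filter.1 hs).2
    · intro p hp
      have h1 : trace (d.filter (fun s => decide (s.1 ≤ q))) p = trace d p := by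
        apply trace_filter_of
        intro s _ hs
        have h' : ¬ (s.1 ≤ q) := by simpa using hs
        rw [ev_eq_none_iff]; omega
      rw [h1]
      have h2 := hd.2 p
      rw [List.map_append, List.map_append, wd_append_left _ _ p (by rw [List.length_map]; omega),
        wd_append_left _ _ p (by rw [List.length_map]; omega)] at h2
      exact h2
    · apply trace_filter_of
      intro s _ hs
      have h' : ¬ (s.1 ≤ q) := by simpa using hs
      rw [ev_eq_none_iff]; omega
  obtain ⟨L', hL1, hL2, hL3, hL4⟩ := h (trace d q) (hK _ d (valid_of_to hd) q) (by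
    intro e he
    obtain ⟨s, hs, h1, h2⟩ := mem_trace he
    rw [h1]
    exact ⟨hd.1 s hs, h2⟩) hLH
  -- the right history of `d`, shifted
  set R := (d.filter (fun s => decide (q < s.1 + s.2.1.length))).map (shift (q - q')) with hR
  have hRt : ∀ p : ℤ, q' ≤ p → trace R p = trace d (p + (q - q')) := by
    intro p hp
    rw [hR, trace_map_shift]
    apply trace_filter_of
    intro s _ hs
    have h' : ¬ (q < s.1 + s.2.1.length) := by simpa using hs
    rw [ev_eq_none_iff]; omega
  have h2 : ∀ s ∈ R, q' < s.1 + s.2.1.length := by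
    intro s hs
    obtain ⟨t, ht, rfl⟩ := List.mem_map.1 hs
    have h3 := (List.mem_filter.1 ht).2
    have h4 : q < t.1 + t.2.1.length := by simpa using h3
    show q' < t.1 - (q - q') + t.2.1.length
    omega
  have h3 : trace L' q' = trace R q' := by
    rw [hL4, hRt q' le_rfl]
    congr 1; ring
  obtain ⟨D, hD1, hD2, hD3⟩ := merge_exists q' L' R hL2 h2 h3
  refine ⟨D, ?_, ?_⟩
  · intro s hs
    rcases hD1 s hs with h | h
    · exact hL1 s h
    · obtain ⟨t, ht, rfl⟩ := List.mem_map.1 h
      exact hd.1 t (List.mem_filter.1 ht).1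
  · intro p
    by_cases hp : p ≤ q'
    · rw [hD2 p hp, List.map_append, List.map_append,
        wd_append_left _ _ p (by rw [List.length_map]; omega),
        wd_append_left _ _ p (by rw [List.length_map]; omega)]
      exact hL3 p hp
    · rw [hD3 p (by omega), hRt p (by omega), List.map_append, List.map_append,
        wd_append_right _ _ p (by rw [List.length_map]; omega),
        wd_append_right _ _ p (by rw [List.length_map]; omega)]
      have h5 := hd.2 (p + (q - q'))
      rw [List.map_append, List.map_append,
        wd_append_right _ _ _ (by rw [List.length_map]; omega),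
        wd_append_right _ _ _ (by rw [List.length_map]; omega)] at h5
      have h6 : (p + (q - q') - ((x.map Prod.fst).length : ℤ)).toNat =
          (p - ((x'.map Prod.fst).length : ℤ)).toNat := by
        rw [List.length_map, List.length_map]; congr 1; omega
      have h7 : (p + (q - q') - ((x.map Prod.snd).length : ℤ)).toNat =
          (p - ((x'.map Prod.snd).length : ℤ)).toNat := by
        rw [List.length_map, List.length_map]; congr 1; omega
      rw [h6, h7] at h5
      exact h5

/-- a function with a finite invariant has finite range -/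
lemma finite_range_of_inv {ι β γ : Type*} (g : ι → β) (h : ι → γ) (hfin : (Set.range h).Finite)
    (hgh : ∀ x x', h x = h x' → g x = g x') : (Set.range g).Finite := by
  classical
  rcases isEmpty_or_nonempty ι with hι | hι
  · rw [Set.range_eq_empty]; exact Set.finite_empty
  · have h1 : Set.range g ⊆ (fun c : γ => g (Function.invFun h c)) '' Set.range h := by
      rintro _ ⟨x, rfl⟩
      refine ⟨h x, ⟨x, rfl⟩, ?_⟩
      exact hgh _ _ (Function.invFun_eq ⟨x, rfl⟩)
    exact (hfin.image _).subset h1

theorem regular_of_bounded (S : Finset (List α × List α))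
    (hS : ∀ p ∈ S, p.1.length = p.2.length) (hS0 : ∀ p ∈ S, p.1 ≠ []) (K : ℕ)
    (hK : ∀ (l : List α) (d : List (Step α)), Valid (S : Set (List α × List α)) l d →
      ∀ p : ℤ, (trace d p).length ≤ K) :
    (RL (S : Set (List α × List α))).IsRegular := by
  classical
  rw [Language.isRegular_iff_finite_range_leftQuotient]
  obtain ⟨B, hB⟩ : ∃ B : ℕ, ∀ p ∈ S, p.1.length ≤ B :=
    ⟨S.sup (fun p => p.1.length), fun p hp => Finset.le_sup (f := fun p : List α × List α =>
      p.1.length) hp⟩
  let E : Finset (Ev α) := S ×ˢ Finset.range B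
  apply finite_range_of_inv _ (fun x : List (α × α) =>
    (({τ : List (Ev α) | τ ∈ lists E K ∧ LH (S : Set (List α × List α)) x τ}) :
      Set (List (Ev α))))
  · apply Set.Finite.subset (Set.Finite.finite_subsets (Finset.finite_toSet (lists E K)))
    rintro _ ⟨x, rfl⟩ τ hτ
    exact hτ.1
  · intro x x' hxx
    have key : ∀ x x' : List (α × α),
        ({τ : List (Ev α) | τ ∈ lists E K ∧ LH (S : Set (List α × List α)) x τ} =
          {τ : List (Ev α) | τ ∈ lists E K ∧ LH (S : Set (List α × List α)) x' τ}) →
        ∀ y, y ∈ (RL (S : Set (List α × List α))).leftQuotient x →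
          y ∈ (RL (S : Set (List α × List α))).leftQuotient x' := by
      intro x x' hxx y hy
      rw [Language.mem_leftQuotient] at hy ⊢
      apply swap_prefix (fun p hp => hS p hp) (fun p hp => hS0 p hp) K hK x x' _ y hy
      intro τ hτ1 hτ2 hτ3
      have h1 : τ ∈ lists E K := by
        apply mem_lists E K τ hτ1
        intro e he
        obtain ⟨h2, h3⟩ := hτ2 e he
        rw [Finset.mem_product, Finset.mem_range]
        exact ⟨h2, lt_of_lt_of_le h3 (hB _ h2)⟩
      have h2 : τ ∈ {τ : List (Ev α) | τ ∈ lists E K ∧ LH (S : Set (List α × List α)) x τ} :=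
        ⟨h1, hτ3⟩
      rw [hxx] at h2
      exact h2.2
    exact Set.Subset.antisymm (fun y => key x x' hxx y) (fun y => key x' x hxx.symm y)

end Pool.Agent.Lib.MP_2674cb_lc
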