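import Pool.Agent.Lib.MP_2674cb_lc.Ins.Real

set_option autoImplicit false

/-! A system with a derivation of mean activity `> a` has one on a word of length at most
exponential in `a`. -/

namespace Pool.Agent.Lib.MP_2674cb_lc

open Finset

variable {α : Type*}

lemma trace_append (d d' : List (Step α)) (p : ℤ) :
    trace (d ++ d') p = trace d p ++ trace d' p := by
  unfold trace
  rw [List.filterMap_append]

lemma localOK_prefix : ∀ (C C' : List (Ev α)) (a : Option α), LocalOK a (C ++ C') → LocalOK a C := by
  intro C
  induction C with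
  | nil => intro C' a _; simp [LocalOK]
  | cons e C ih =>
    intro C' a h
    exact ⟨h.1, h.2.1, ih C' _ h.2.2⟩

lemma valid_prefix {S : Set (List α × List α)} {l : List α} {d d' : List (Step α)}
    (hv : Valid S l (d ++ d')) : Valid S l d := by
  refine ⟨fun s hs => hv.1 s (List.mem_append_left _ hs), fun p => ?_⟩
  have h := hv.2 p
  rw [trace_append] at h
  exact localOK_prefix _ _ _ h

/-- the total activity -/
def tot (l : List α) (d : List (Step α)) : ℕ := ∑ p ∈ range l.length, (trace d (p : ℤ)).length

lemma tot_append (l : List α) (d d' : List (Step α)) : tot l (d ++ d') = tot l d + tot l d' := by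
  unfold tot
  rw [← sum_add_distrib]
  apply sum_congr rfl
  intro p _
  rw [trace_append, List.length_append]

lemma tot_nil (l : List α) : tot l [] = 0 := by
  unfold tot
  simp [trace_nil]

/-- Short words of large mean activity. -/
theorem short_of_mean (S : Finset (List α × List α)) (B : ℕ)
    (hB : ∀ p ∈ S, p.1.length ≤ B) (a : ℕ)
    (h : ∃ (l : List α) (d : List (Step α)), Valid (S : Set (List α × List α)) l d ∧
      a * l.length < tot l d) :
    ∃ (l : List α) (d : List (Step α)), Valid (S : Set (List α × List α)) l d ∧
      a * l.length < tot l d ∧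
      l.length ≤ B + (a + 1) * ((S.card * B + 1) ^ a * (B + 1 + 2 * a * (S.card * B + 1) ^ a)) := by
  classical
  let G : ℕ → Prop := fun n => ∃ (l : List α) (d : List (Step α)),
    Valid (S : Set (List α × List α)) l d ∧ a * l.length < tot l d ∧ l.length = n
  have hG : ∃ n, G n := by
    obtain ⟨l, d, h1, h2⟩ := h
    exact ⟨l.length, l, d, h1, h2, rfl⟩
  set N := Nat.find hG with hN
  have hmin : ∀ (l : List α) (d : List (Step α)), Valid (S : Set (List α × List α)) l d →
      l.length < N → tot l d ≤ a * l.length := by
    intro l d h1 h2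
    by_contra h3
    push Not at h3
    exact Nat.find_min hG h2 ⟨l, d, h1, h3, rfl⟩
  let H : ℕ → Prop := fun m => ∃ (l : List α) (d : List (Step α)),
    Valid (S : Set (List α × List α)) l d ∧ a * l.length < tot l d ∧ l.length = N ∧ d.length = m
  have hH : ∃ m, H m := by
    obtain ⟨l, d, h1, h2, h3⟩ := Nat.find_spec hG
    exact ⟨d.length, l, d, h1, h2, h3, rfl⟩
  obtain ⟨l, d, hv, hex, hl, hd⟩ := Nat.find_spec hH
  have hmin2 : ∀ (d' : List (Step α)), Valid (S : Set (List α × List α)) l d' →
      d'.length < d.length → tot l d' ≤ a * l.length := by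
    intro d' h1 h2
    by_contra h3
    push Not at h3
    rw [hd] at h2
    exact Nat.find_min hH h2 ⟨l, d', h1, h3, hl, rfl⟩
  refine ⟨l, d, hv, hex, ?_⟩
  -- the excess is at most `B`
  have hup : tot l d ≤ a * l.length + B := by
    rcases List.eq_nil_or_concat d with h0 | ⟨d0, s, h0⟩
    · rw [h0, tot_nil] at hex; omega
    · rw [h0] at hv hmin2 ⊢
      rw [List.concat_eq_append] at hv hmin2 ⊢
      have h1 := hmin2 d0 (valid_prefix hv) (by simp)
      have h2 : tot l [s] ≤ B * [s].length := sum_le_length _ B [s] (by
        intro t ht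
        rw [List.mem_singleton] at ht
        rw [ht]
        exact hB s.2 (hv.1 s (by simp)))
      rw [tot_append]
      simp only [List.length_singleton, mul_one] at h2
      omega
  -- the walk
  let f : List (Ev α) → ℤ := fun t => (t.length : ℤ) - a
  have hfsum : ∀ (l' : List α) (d' : List (Step α)),
      ((TL l' d').map f).sum = (tot l' d' : ℤ) - a * l'.length := fun l' d' => TL_sum l' d' a
  have key := length_bound (β := List (Ev α)) (Rz := Rz (S : Set (List α × List α)))
    (cutClosed_Rz _) f a B (fun t => by simp only [f]; omega)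
    (lists (S ×ˢ range B) a) (by
      rintro W ⟨l', d', hv', rfl⟩ t ht hft
      apply mem_lists
      · simp only [f] at hft; omega
      · intro e he
        unfold TL at ht
        obtain ⟨q, _, rfl⟩ := List.mem_map.1 ht
        obtain ⟨s, hs, h1, h2⟩ := mem_trace he
        rw [mem_product, mem_range]
        refine ⟨?_, lt_of_lt_of_le h2 (hB s.2 (hv'.1 s hs))⟩
        rw [h1]; exact hv'.1 s hs)
    (TL l d) ⟨l, d, hv, rfl⟩
    (by rw [hfsum]; have : (a * l.length : ℤ) < tot l d := by exact_mod_cast hex
        linarith)
    (by rw [hfsum]; have : (tot l d : ℤ) ≤ a * l.length + B := by exact_mod_cast hup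
        linarith)
    (by
      rintro W' ⟨l', d', hv', rfl⟩ hlt
      rw [TL_length, TL_length, hl] at hlt
      have h1 := hmin l' d' hv' hlt
      rw [hfsum]
      have : (tot l' d' : ℤ) ≤ a * l'.length := by exact_mod_cast h1
      linarith)
  rw [TL_length] at key
  have hQ : (lists (S ×ˢ range B) a).card ≤ (S.card * B + 1) ^ a := by
    have := card_lists (S ×ˢ range B) a
    rwa [card_product, card_range] at this
  refine le_trans key ?_
  apply Nat.add_le_add_left
  apply Nat.mul_le_mul_left
  exact Nat.mul_le_mul hQ (Nat.add_le_add_left (Nat.mul_le_mul_left _ hQ) _)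

end Pool.Agent.Lib.MP_2674cb_lc
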