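import Pool.Agent.Lib.MP_2674cb_lc.Ins.Short

set_option autoImplicit false

/-! Superadditivity and the lower bound `c n log n` for all large `n`. -/

namespace Pool.Agent.Lib.MP_2674cb_lc

open Finset Filter Asymptotics

variable {α : Type*}

/-- there is a derivation of length `m` which starts from a word of length `n` -/
def DL (S : Set (List α × List α)) (n m : ℕ) : Prop :=
  ∃ f : ℕ → List α, (f 0).length = n ∧ ∀ i < m, RStep S (f i) (f (i + 1))

lemma DL_add {S : Set (List α × List α)} {n1 m1 n2 m2 : ℕ} (h1 : DL S n1 m1) (h2 : DL S n2 m2) :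
    DL S (n1 + n2) (m1 + m2) := by
  obtain ⟨f1, hf1, hs1⟩ := h1
  obtain ⟨f2, hf2, hs2⟩ := h2
  refine ⟨fun i => if i < m1 then f1 i ++ f2 0 else f1 m1 ++ f2 (i - m1), ?_, ?_⟩
  · by_cases h : 0 < m1
    · simp only [h, if_true, List.length_append, hf1, hf2]
    · have h0 : m1 = 0 := by omega
      subst h0
      simp only [lt_irrefl, if_false, Nat.sub_self, List.length_append, hf1, hf2]
  · intro i hi
    by_cases h : i < m1
    · obtain ⟨x, y, p, hp, hx, hy⟩ := hs1 i h
      refine ⟨x, y ++ f2 0, p, hp, ?_, ?_⟩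
      · simp only [h, if_true]
        rw [hx]; simp
      · by_cases h' : i + 1 < m1
        · simp only [h', if_true]
          rw [hy]; simp
        · have h0 : m1 = i + 1 := by omega
          subst h0
          simp only [lt_irrefl, if_false, Nat.sub_self]
          rw [hy]; simp
    · obtain ⟨x, y, p, hp, hx, hy⟩ := hs2 (i - m1) (by omega)
      have h' : ¬ i + 1 < m1 := by omega
      refine ⟨f1 m1 ++ x, y, p, hp, ?_, ?_⟩
      · simp only [h, if_false]
        rw [hx]; simp
      · simp only [h', if_false]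
        have h3 : i + 1 - m1 = i - m1 + 1 := by omega
        rw [h3, hy]; simp

lemma DL_zero [Nonempty α] (S : Set (List α × List α)) (n : ℕ) : DL S n 0 := by
  refine ⟨fun _ => List.replicate n (Classical.arbitrary α), by simp, by simp⟩

lemma DL_mul [Nonempty α] {S : Set (List α × List α)} {n m : ℕ} (h : DL S n m) (j : ℕ) :
    DL S (j * n) (j * m) := by
  induction j with
  | zero => simpa using DL_zero S 0
  | succ j ih => rw [Nat.succ_mul, Nat.succ_mul]; exact DL_add ih h

lemma DL_of_valid {S : Set (List α × List α)} (hlen : ∀ p ∈ S, p.1.length = p.2.length)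
    (hne : ∀ p ∈ S, p.1 ≠ []) {l : List α} {d : List (Step α)} (hv : Valid S l d) :
    DL S l.length d.length := by
  obtain ⟨f, hf0, hf⟩ := chain_of_valid S hlen hne d l hv
  exact ⟨f, by rw [hf0], hf⟩

lemma tot_le (l : List α) (d : List (Step α)) (B : ℕ) (hB : ∀ s ∈ d, s.2.1.length ≤ B) :
    tot l d ≤ B * d.length := sum_le_length _ B d hB

/-- polynomial against exponential -/
lemma poly_le (B : ℕ) : ∃ a0 : ℕ, ∀ a ≥ a0, B + (a + 1) * (B + 1 + 2 * a) ≤ 2 ^ a := by
  have h := isLittleO_pow_const_const_pow_of_one_lt (R := ℝ) 2 (r := 2) (by norm_num)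
  have h1 := h.def (c := 1 / (3 * (B : ℝ) + 6)) (by positivity)
  rw [eventually_atTop] at h1
  obtain ⟨a1, ha1⟩ := h1
  refine ⟨max a1 1, fun a ha => ?_⟩
  have h2 := ha1 a (le_trans (le_max_left _ _) ha)
  have h3 : 1 ≤ a := le_trans (le_max_right _ _) ha
  rw [Real.norm_eq_abs, Real.norm_eq_abs, abs_of_nonneg (by positivity),
    abs_of_nonneg (by positivity)] at h2
  have h4 : ((3 * (B : ℝ) + 6)) * (a : ℝ) ^ 2 ≤ 2 ^ a := by
    have h5 := mul_le_mul_of_nonneg_left h2 (show (0 : ℝ) ≤ 3 * (B : ℝ) + 6 by positivity)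
    calc _ ≤ (3 * (B : ℝ) + 6) * (1 / (3 * (B : ℝ) + 6) * 2 ^ a) := h5
      _ = 2 ^ a := by field_simp
  have h5 : (3 * B + 6) * a ^ 2 ≤ 2 ^ a := by exact_mod_cast h4
  refine le_trans ?_ h5
  have h6 : a + 1 ≤ 2 * a := by omega
  have h7 : B + 1 + 2 * a ≤ (B + 3) * a := by nlinarith
  have h8 : B ≤ B * a ^ 2 := Nat.le_mul_of_pos_right _ (by positivity)
  calc B + (a + 1) * (B + 1 + 2 * a) ≤ B * a ^ 2 + (2 * a) * ((B + 3) * a) :=
        Nat.add_le_add h8 (Nat.mul_le_mul h6 h7)
    _ = (3 * B + 6) * a ^ 2 := by ring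

lemma F_le (B b : ℕ) (hb : 2 ≤ b) : ∃ a0 : ℕ, ∀ a ≥ a0,
    B + (a + 1) * (b ^ a * (B + 1 + 2 * a * b ^ a)) ≤ b ^ (3 * a) := by
  obtain ⟨a0, h0⟩ := poly_le B
  refine ⟨a0, fun a ha => ?_⟩
  have h1 := h0 a ha
  have hb1 : 1 ≤ b ^ a := Nat.one_le_pow _ _ (by omega)
  have h2 : 2 ^ a ≤ b ^ a := Nat.pow_le_pow_left hb a
  have h3 : B + (a + 1) * (b ^ a * (B + 1 + 2 * a * b ^ a)) ≤
      (b ^ a * b ^ a) * (B + (a + 1) * (B + 1 + 2 * a)) := by
    have h4 : B ≤ (b ^ a * b ^ a) * B := Nat.le_mul_of_pos_left _ (by positivity)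
    have h5 : b ^ a * (B + 1 + 2 * a * b ^ a) ≤ (b ^ a * b ^ a) * (B + 1 + 2 * a) := by
      rw [mul_assoc (b ^ a) (b ^ a)]
      apply Nat.mul_le_mul_left
      nlinarith [Nat.mul_le_mul_left (B + 1) hb1]
    calc B + (a + 1) * (b ^ a * (B + 1 + 2 * a * b ^ a))
        ≤ (b ^ a * b ^ a) * B + (a + 1) * ((b ^ a * b ^ a) * (B + 1 + 2 * a)) :=
          Nat.add_le_add h4 (Nat.mul_le_mul_left _ h5)
      _ = _ := by ring
  calc _ ≤ _ := h3
    _ ≤ (b ^ a * b ^ a) * b ^ a := Nat.mul_le_mul_left _ (le_trans h1 h2)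
    _ = b ^ (3 * a) := by rw [← pow_add, ← pow_add]; congr 1; omega

/-- One-point gap: for every `n ≥ n₀`, where `n₀` depends only on bounds `s` for the number of rules
and `B` for their length, either all mean activities (at all lengths) are at most
`a = ⌊log_b n / 3⌋`, `b = s B + 1`, or there is a derivation of length `c n log n` from a word of
length `n`. -/
theorem point_gap (s B : ℕ) (hs1 : 1 ≤ s) (hB1 : 1 ≤ B) :
    ∃ n0 : ℕ, 1 ≤ n0 ∧ ∀ (α : Type*) (S : Finset (List α × List α)), S.card ≤ s →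
      (∀ p ∈ S, p.1.length = p.2.length) → (∀ p ∈ S, p.1 ≠ []) → (∀ p ∈ S, p.1.length ≤ B) →
      ∀ n ≥ n0,
        (∀ (l : List α) (d : List (Step α)), Valid (S : Set (List α × List α)) l d →
          tot l d ≤ (Nat.log (s * B + 1) n / 3) * l.length) ∨
        ∃ m : ℕ, DL (S : Set (List α × List α)) n m ∧
          (n : ℝ) * Real.log n / (8 * B * Real.log (s * B + 1)) ≤ m := by
  classical
  set b := s * B + 1 with hb
  have hb2 : 2 ≤ b := by
    have : 1 ≤ s * B := Nat.mul_pos hs1 hB1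
    omega
  obtain ⟨a0, ha0⟩ := F_le B b hb2
  have hlim : Tendsto (fun n : ℕ => Nat.log b n / 3) atTop atTop := by
    apply tendsto_atTop_atTop.2
    intro c
    refine ⟨b ^ (3 * c), fun n hn => ?_⟩
    rw [Nat.le_div_iff_mul_le (by norm_num)]
    apply Nat.le_log_of_pow_le (by omega)
    rw [mul_comm]; exact hn
  obtain ⟨n1, hn1⟩ := eventually_atTop.1 (hlim.eventually_ge_atTop (max a0 3))
  refine ⟨max n1 1, le_max_right _ _, ?_⟩
  intro α S hcard hlen hne hB n hn
  have hn2 := hn1 n (le_trans (le_max_left _ _) hn)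
  have hn3 : 1 ≤ n := le_trans (le_max_right _ _) hn
  set a := Nat.log b n / 3 with ha
  by_cases hmean : ∀ (l : List α) (d : List (Step α)), Valid (S : Set (List α × List α)) l d →
      tot l d ≤ a * l.length
  · exact Or.inl hmean
  right
  push Not at hmean
  obtain ⟨l1, d1, hv1, hex1⟩ := hmean
  have hSne : ∃ p, p ∈ S := by
    cases d1 with
    | nil => rw [tot_nil] at hex1; omega
    | cons s d => exact ⟨s.2, hv1.1 s List.mem_cons_self⟩
  obtain ⟨p0, hp0⟩ := hSne
  have : Nonempty α := ⟨p0.1.head (hne p0 hp0)⟩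
  have ha1 : a0 ≤ a := le_trans (le_max_left _ _) hn2
  have ha3 : 3 ≤ a := le_trans (le_max_right _ _) hn2
  obtain ⟨l, d, hv, hex, hl'⟩ := short_of_mean S B hB a ⟨l1, d1, hv1, hex1⟩
  have hQ : (S.card * B + 1) ^ a ≤ b ^ a :=
    Nat.pow_le_pow_left (by rw [hb]; exact Nat.add_le_add_right (Nat.mul_le_mul_right _ hcard) 1) a
  have hl : l.length ≤ B + (a + 1) * (b ^ a * (B + 1 + 2 * a * b ^ a)) := by
    refine le_trans hl' ?_
    apply Nat.add_le_add_left
    apply Nat.mul_le_mul_left
    exact Nat.mul_le_mul hQ (Nat.add_le_add_left (Nat.mul_le_mul_left _ hQ) _)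
  have hF := ha0 a ha1
  have hpow : b ^ (3 * a) ≤ n := by
    calc b ^ (3 * a) ≤ b ^ Nat.log b n := Nat.pow_le_pow_right (by omega) (by omega)
      _ ≤ n := Nat.pow_log_le_self _ (by omega)
  have hln : l.length ≤ n := le_trans hl (le_trans hF hpow)
  have hl1 : 1 ≤ l.length := by
    by_contra h0
    have h1 : l.length = 0 := by omega
    unfold tot at hex
    rw [h1] at hex
    simp at hex
  have hlenS : ∀ p ∈ (S : Set (List α × List α)), p.1.length = p.2.length := fun p hp => hlen p hp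
  have hneS : ∀ p ∈ (S : Set (List α × List α)), p.1 ≠ [] := fun p hp => hne p hp
  have hDL := DL_of_valid hlenS hneS hv
  have htot := tot_le l d B (fun s hs => hB s.2 (hv.1 s hs))
  set j := n / l.length with hj
  refine ⟨j * d.length, ?_, ?_⟩
  · have h1 := DL_add (DL_mul hDL j) (DL_zero (S : Set (List α × List α)) (n - j * l.length))
    have h2 : j * l.length ≤ n := Nat.div_mul_le_self _ _
    rwa [Nat.add_sub_cancel' h2, add_zero] at h1
  · have hj1 : 1 ≤ j := (Nat.one_le_div_iff (by omega)).2 hln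
    have hnj : n ≤ 2 * (j * l.length) := by
      have h1 := Nat.div_add_mod n l.length
      have h2 := Nat.mod_lt n (show 0 < l.length by omega)
      rw [← hj] at h1
      nlinarith
    have h3 : a * n ≤ 2 * B * (j * d.length) := by
      calc a * n ≤ a * (2 * (j * l.length)) := Nat.mul_le_mul_left _ hnj
        _ = 2 * j * (a * l.length) := by ring
        _ ≤ 2 * j * (B * d.length) := Nat.mul_le_mul_left _ (le_trans hex.le htot)
        _ = 2 * B * (j * d.length) := by ring
    have hlogb : 0 < Real.log (b : ℝ) := Real.log_pos (by exact_mod_cast (by omega : 1 < b))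
    have hbcast : ((s : ℝ) * B + 1) = (b : ℝ) := by rw [hb]; push_cast; ring
    rw [hbcast]
    have hBr : (1 : ℝ) ≤ B := by exact_mod_cast hB1
    rw [div_le_iff₀ (by positivity)]
    have hlogn : Real.log n ≤ 4 * a * Real.log b := by
      have h4 : n < b ^ (Nat.log b n + 1) := Nat.lt_pow_succ_log_self (by omega) _
      have h5 : n ≤ b ^ (4 * a) := by
        calc n ≤ b ^ (Nat.log b n + 1) := h4.le
          _ ≤ b ^ (4 * a) := Nat.pow_le_pow_right (by omega) (by omega)
      have h6 : (n : ℝ) ≤ (b : ℝ) ^ (4 * a) := by exact_mod_cast h5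
      calc Real.log n ≤ Real.log ((b : ℝ) ^ (4 * a)) :=
            Real.log_le_log (by exact_mod_cast hn3) h6
        _ = 4 * a * Real.log b := by rw [Real.log_pow]; push_cast; ring
    have h3r : (a : ℝ) * n ≤ 2 * B * ((j * d.length : ℕ) : ℝ) := by exact_mod_cast h3
    calc (n : ℝ) * Real.log n ≤ n * (4 * a * Real.log b) :=
          mul_le_mul_of_nonneg_left hlogn (Nat.cast_nonneg _)
      _ = 4 * Real.log b * (a * n) := by ring
      _ ≤ 4 * Real.log b * (2 * B * ((j * d.length : ℕ) : ℝ)) :=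
          mul_le_mul_of_nonneg_left h3r (by positivity)
      _ = ((j * d.length : ℕ) : ℝ) * (8 * B * Real.log b) := by ring

/-- If mean activities are bounded, then local activities are bounded. -/
theorem trace_bound (S : Finset (List α × List α)) (B : ℕ)
    (hne : ∀ p ∈ S, p.1 ≠ []) (hB : ∀ p ∈ S, p.1.length ≤ B) (a : ℕ)
    (h : ∀ (l : List α) (d : List (Step α)), Valid (S : Set (List α × List α)) l d →
      tot l d ≤ a * l.length) :
    ∃ K : ℕ, ∀ (l : List α) (d : List (Step α)), Valid (S : Set (List α × List α)) l d →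
      ∀ p : ℤ, (trace d p).length ≤ K := by
  by_contra hcon
  push Not at hcon
  set N0 := 4 * (S.card * B + 2) ^ (4 * B * a + 1) + 4 with hN0
  obtain ⟨l, d, hv, hK, hlong⟩ := long_of_unbounded S B hB (a * N0) (by
    obtain ⟨l, d, hv, p, hp⟩ := hcon (a * N0)
    have hne' : trace d p ≠ [] := by
      intro h0; rw [h0] at hp; simp at hp
    obtain ⟨h1, h2⟩ := pos_of_trace_ne hv hne'
    obtain ⟨q, hq⟩ := Int.eq_ofNat_of_zero_le h1
    refine ⟨l, d, hv, q, by omega, ?_⟩
    rw [← hq]; exact hp)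
  have h1 : d.length ≤ tot l d := length_le_sum (fun p hp => hne p hp) hv
  have h2 := h l d hv
  have h3 : N0 < l.length := by
    by_contra hle
    push Not at hle
    have := Nat.mul_le_mul_left a hle
    omega
  have h4 := hlong (by omega)
  have h5 : l.length * Nat.log (S.card * B + 2) (l.length / 4) ≤ l.length * (4 * B * a) := by
    calc _ ≤ 4 * B * d.length := h4
      _ ≤ 4 * B * (a * l.length) := Nat.mul_le_mul_left _ (le_trans h1 h2)
      _ = l.length * (4 * B * a) := by ring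
  have h6 : Nat.log (S.card * B + 2) (l.length / 4) ≤ 4 * B * a :=
    Nat.le_of_mul_le_mul_left h5 (by omega)
  have h7 : l.length / 4 < (S.card * B + 2) ^ (Nat.log (S.card * B + 2) (l.length / 4) + 1) :=
    Nat.lt_pow_succ_log_self (by omega) _
  have h8 : (S.card * B + 2) ^ (Nat.log (S.card * B + 2) (l.length / 4) + 1) ≤
      (S.card * B + 2) ^ (4 * B * a + 1) := Nat.pow_le_pow_right (by omega) (by omega)
  omega

end Pool.Agent.Lib.MP_2674cb_lc
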