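import Pool.Agent.Lib.MP_2674cb_lc.Ins.Super

set_option autoImplicit false

/-! Derivations with a prescribed final word. -/

namespace Pool.Agent.Lib.MP_2674cb_lc

variable {α : Type*}

/-- the trace leads from the first letter to the second letter -/
def LocalTo : Option α → List (Ev α) → Option α → Prop
  | a, [], b => a = b
  | a, e :: C, b => a.isSome ∧ e.1.1[e.2]? = a ∧ LocalTo (e.1.2[e.2]?) C b

lemma localOK_of_to : ∀ (C : List (Ev α)) (a b : Option α), LocalTo a C b → LocalOK a C := by
  intro C
  induction C with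
  | nil => intro a b _; simp [LocalOK]
  | cons e C ih => intro a b h; exact ⟨h.1, h.2.1, ih _ _ h.2.2⟩

/-- `d` is a valid list of steps from `l` to `l'`. -/
def ValidTo (S : Set (List α × List α)) (l : List α) (d : List (Step α)) (l' : List α) : Prop :=
  (∀ s ∈ d, s.2 ∈ S) ∧ ∀ p, LocalTo (wd l p) (trace d p) (wd l' p)

lemma valid_of_to {S : Set (List α × List α)} {l l' : List α} {d : List (Step α)}
    (h : ValidTo S l d l') : Valid S l d := ⟨h.1, fun p => localOK_of_to _ _ _ (h.2 p)⟩

lemma validTo_nil (S : Set (List α × List α)) (l : List α) : ValidTo S l [] l :=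
  ⟨by simp, fun p => by rw [trace_nil]; rfl⟩

lemma eq_of_validTo_nil {S : Set (List α × List α)} {l l' : List α} (h : ValidTo S l [] l') :
    l = l' := by
  apply List.ext_getElem?
  intro n
  have h1 := h.2 (n : ℤ)
  rw [trace_nil] at h1
  have h2 : wd l (n : ℤ) = wd l' (n : ℤ) := h1
  simpa [wd] using h2

lemma validTo_cons {S : Set (List α × List α)} (hS : ∀ p ∈ S, p.1.length = p.2.length)
    {x y : List α} {r : List α × List α} (hr : r ∈ S) {d : List (Step α)} {l' : List α}
    (h : ValidTo S (x ++ r.2 ++ y) d l') :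
    ValidTo S (x ++ r.1 ++ y) (((x.length : ℤ), r) :: d) l' := by
  have hlen := hS r hr
  refine ⟨?_, ?_⟩
  · intro s hs
    rcases List.mem_cons.1 hs with rfl | hs
    · exact hr
    · exact h.1 s hs
  · intro p
    have h3 := h.2 p
    cases he : ev ((x.length : ℤ), r) p with
    | none =>
      rw [trace_cons_none he]
      rw [ev_eq_none_iff] at he
      rw [wd_out x r.1 r.2 y hlen p (by simpa using he)]
      exact h3
    | some e =>
      rw [trace_cons_some he]
      obtain ⟨⟨h4, h5⟩, h6⟩ := (ev_eq_some_iff _ _ _).1 he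
      simp only at h4 h5 h6
      have h7 : wd (x ++ r.1 ++ y) p = r.1[(p - x.length).toNat]? := wd_mid x r.1 y p h4 h5
      have h8 : wd (x ++ r.2 ++ y) p = r.2[(p - x.length).toNat]? :=
        wd_mid x r.2 y p h4 (by omega)
      subst h6
      refine ⟨?_, h7.symm, ?_⟩
      · rw [h7, Option.isSome_iff_exists]
        exact ⟨_, List.getElem?_eq_getElem (by omega)⟩
      · show LocalTo (r.2[(p - x.length).toNat]?) (trace d p) (wd l' p)
        rw [← h8]; exact h3

lemma validTo_uncons {S : Set (List α × List α)} (hS : ∀ p ∈ S, p.1.length = p.2.length)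
    (hS0 : ∀ p ∈ S, p.1 ≠ []) {s : Step α} {d : List (Step α)} {l l' : List α}
    (hv : ValidTo S l (s :: d) l') :
    ∃ x y : List α, s.1 = x.length ∧ l = x ++ s.2.1 ++ y ∧ ValidTo S (x ++ s.2.2 ++ y) d l' := by
  obtain ⟨i, r⟩ := s
  have hr : r ∈ S := hv.1 (i, r) List.mem_cons_self
  have hlen := hS r hr
  have hpos : 0 < r.1.length := List.length_pos_iff.2 (hS0 r hr)
  have hloc : ∀ o : ℕ, o < r.1.length → wd l (i + o) = r.1[o]? ∧ (wd l (i + o)).isSome ∧
      LocalTo (r.2[o]?) (trace d (i + o)) (wd l' (i + o)) := by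
    intro o ho
    have h1 := hv.2 (i + o)
    have he : ev (i, r) (i + o) = some (r, o) := by
      rw [ev_eq_some_iff]
      refine ⟨⟨by simp, by simpa using ho⟩, ?_⟩
      simp
    rw [trace_cons_some he] at h1
    obtain ⟨h2, h3, h4⟩ := h1
    exact ⟨h3.symm, h2, h4⟩
  have hi : 0 ≤ i := by
    have h1 := (hloc 0 hpos).2.1
    by_contra hneg
    unfold wd at h1
    simp only [Nat.cast_zero, add_zero] at h1
    rw [if_neg hneg] at h1
    simp at h1
  obtain ⟨j, rfl⟩ := Int.eq_ofNat_of_zero_le hi
  have hget : ∀ o : ℕ, o < r.1.length → l[j + o]? = r.1[o]? := by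
    intro o ho
    have h1 := (hloc o ho).1
    unfold wd at h1
    rw [if_pos (by omega)] at h1
    rw [← h1]
    congr 1
  have hlast : j + r.1.length ≤ l.length := by
    by_contra hneg
    have h1 := hget (r.1.length - 1) (by omega)
    rw [List.getElem?_eq_none (by omega)] at h1
    rw [List.getElem?_eq_getElem (by omega)] at h1
    simp at h1
  have hl : l = l.take j ++ r.1 ++ l.drop (j + r.1.length) := by
    apply List.ext_getElem?
    intro n
    by_cases h1 : n < j
    · rw [List.append_assoc, List.getElem?_append_left (by rw [List.length_take]; omega)]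
      rw [List.getElem?_take_of_lt h1]
    · by_cases h2 : n < j + r.1.length
      · rw [List.getElem?_append_left (by rw [List.length_append, List.length_take]; omega)]
        rw [List.getElem?_append_right (by rw [List.length_take]; omega)]
        rw [List.length_take, min_eq_left (by omega)]
        rw [← hget (n - j) (by omega)]
        congr 1; omega
      · rw [List.getElem?_append_right (by rw [List.length_append, List.length_take]; omega)]
        rw [List.length_append, List.length_take, min_eq_left (by omega), List.getElem?_drop]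
        congr 1; omega
  set x := l.take j with hx
  set y := l.drop (j + r.1.length) with hy
  have hxl : x.length = j := by rw [hx, List.length_take]; omega
  refine ⟨x, y, by simp [hxl], hl, fun s hs => hv.1 s (List.mem_cons_of_mem _ hs), ?_⟩
  intro p
  show LocalTo (wd (x ++ r.2 ++ y) p) (trace d p) (wd l' p)
  cases he : ev ((j : ℤ), r) p with
  | none =>
    have h1 := hv.2 p
    rw [trace_cons_none he] at h1
    rw [ev_eq_none_iff] at he
    rw [← wd_out x r.1 r.2 y hlen p (by rw [hxl]; simpa using he), ← hl]
    exact h1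
  | some e =>
    obtain ⟨⟨h4, h5⟩, h6⟩ := (ev_eq_some_iff _ _ _).1 he
    simp only at h4 h5 h6
    have h7 := (hloc (p - j).toNat (by omega)).2.2
    have h8 : (j : ℤ) + ((p - j).toNat : ℕ) = p := by omega
    rw [h8] at h7
    rw [wd_mid x r.2 y p (by omega) (by omega), hxl]
    exact h7

/-- reachability in terms of valid step lists -/
lemma reach_iff {S : Set (List α × List α)} (hS : ∀ p ∈ S, p.1.length = p.2.length)
    (hS0 : ∀ p ∈ S, p.1 ≠ []) (l l' : List α) :
    Relation.ReflTransGen (RStep S) l l' ↔ ∃ d, ValidTo S l d l' := by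
  constructor
  · intro h
    induction h using Relation.ReflTransGen.head_induction_on with
    | refl => exact ⟨[], validTo_nil S l'⟩
    | head hstep _ ih =>
      obtain ⟨d, hd⟩ := ih
      obtain ⟨x, y, r, hr, h0, h1⟩ := hstep
      rw [h1] at hd
      rw [h0]
      exact ⟨_, validTo_cons hS hr hd⟩
  · rintro ⟨d, hd⟩
    induction d generalizing l with
    | nil => rw [eq_of_validTo_nil hd]
    | cons s d ih =>
      obtain ⟨x, y, _, hl, hv⟩ := validTo_uncons hS hS0 hd
      have hr : s.2 ∈ S := hd.1 s List.mem_cons_self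
      exact Relation.ReflTransGen.head ⟨x, y, s.2, hr, hl, rfl⟩ (ih _ hv)

/-- a derivation given by its words, positions and rules is a valid step list -/
lemma validTo_of_der {S : Set (List α × List α)} (hS : ∀ p ∈ S, p.1.length = p.2.length) :
    ∀ (m : ℕ) (f : ℕ → List α) (g : ℕ → ℕ) (r : ℕ → List α × List α),
      (∀ i < m, r i ∈ S ∧ ∃ x y : List α, x.length = g i ∧ f i = x ++ (r i).1 ++ y ∧
        f (i + 1) = x ++ (r i).2 ++ y) →
      ValidTo S (f 0) ((List.range m).map (fun i => ((g i : ℤ), r i))) (f m) := by
  intro m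
  induction m with
  | zero => intro f g r _; exact validTo_nil S (f 0)
  | succ m ih =>
    intro f g r h
    have h1 := ih (fun i => f (i + 1)) (fun i => g (i + 1)) (fun i => r (i + 1))
      (fun i hi => h (i + 1) (by omega))
    obtain ⟨hr, x, y, hx, h2, h3⟩ := h 0 (by omega)
    rw [List.range_succ_eq_map, List.map_cons, List.map_map, h2]
    simp only [zero_add] at h1 h3
    rw [h3] at h1
    have h4 := validTo_cons hS hr h1
    rw [hx] at h4
    exact h4

end Pool.Agent.Lib.MP_2674cb_lc
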